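import Pool.Agent.W_448t8_h97.TH
import Pool.Agent.W_448mp_h83.MpA

/-!
MP_448cb3_co, G2: THE MATCHING LAW OF A LEVEL AS A SUM OVER THE PARTS, and the total identity of the windows
`j - 1`, `j` together with it.  No hypothesis on the joins.  helper10.
-/

set_option autoImplicit false

namespace Pool.Agent.GaussPoset.Mm

set_option linter.unusedSectionVars false

open Finset Win St Wd Win.W4 EK
open Pool.Agent.GaussPoset.Win.Pn

universe u

variable {P : Type u} [Fintype P] [PartialOrder P] [DecidableEq P] {r i j l : ℕ}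
  {psi : P → P} {K : Finset P}

/-- the signed degree of an element of the level `l`: common children minus common covers, over all
other elements of the level -/
noncomputable def sg (l : ℕ) (u : P) : ℤ := ∑ w ∈ (lv P l).erase u, Df l {u, w}

/-- the sum of the squares of the defects at an element of the level `l` -/
noncomputable def qg (l : ℕ) (u : P) : ℤ := ∑ w ∈ (lv P l).erase u, Df l {u, w} ^ 2

/-- the part value of the matching law with weights `g1`, `g2` -/
noncomputable def Mq (l : ℕ) (g1 g2 : ℤ) (t : Tops P) : ℤ :=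
  ∑ u ∈ (lv P l).filter (fun u => (topOf u : Tops P) = t),
    (g1 * sg l u + g2 * (2 * sg l u ^ 2 - qg l u))

theorem sum_sg (H : Gr P r) (hl : l ≤ r) : ∑ u ∈ lv P l, sg l u = 0 :=
  Mp.piece_lin H hl ⟨Subset.rfl, fun _ _ w hw hn => absurd (mem_lv.2 hw) hn⟩

theorem sum_qg (H : Gr P r) (hl : l ≤ r) : ∑ u ∈ lv P l, (2 * sg l u ^ 2 - qg l u) = 0 := by
  have h := Mp.piece_quad H hl (W := lv P l) ⟨Subset.rfl, fun _ _ w hw hn => absurd (mem_lv.2 hw) hn⟩
  rw [sum_sub_distrib, ← mul_sum]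
  unfold sg qg
  linarith

/-- THE MATCHING LAW, part by part -/
theorem sum_Mq (H : Gr P r) (hl : l ≤ r) (g1 g2 : ℤ) : ∑ t : Tops P, Mq l g1 g2 t = 0 := by
  classical
  unfold Mq
  rw [Finset.sum_fiberwise (lv P l) (fun u => (topOf u : Tops P))
    (fun u => g1 * sg l u + g2 * (2 * sg l u ^ 2 - qg l u)), sum_add_distrib, ← mul_sum, ← mul_sum,
    sum_sg H hl, sum_qg H hl]
  ring

section nj

variable (h : NJ P r j) (hij : i + 1 = j) (hi1 : 1 ≤ i) (hb : 1 ≤ (lv P i).card)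
  (R : EK.Red P j K psi)
include h hij hi1 hb R

/-- THE END with the matching law of the level `j + 1` -/
theorem nj_end_mm (W : Wt) (h8 : 0 ≤ W.a8) (g1 g2 : ℤ) (g : P → P → ℤ)
    (hg : ∀ z ∈ K2.Z2 j (topOf : P → Tops P), ∑ y ∈ uc z, g z y ≤ Pn.cst W i j K z)
    (hpos : ∀ t : Tops P, 0 ≤ Lm W g i j t + Mq (j + 1) g1 g2 t) :
    (∀ t : Tops P, Lm W g i j t + Mq (j + 1) g1 g2 t = 0) ∧
    (∀ z ∈ K2.Z2 j (topOf : P → Tops P), Pn.cst W i j K z = ∑ y ∈ uc z, g z y) ∧
    ∀ z ∈ mx (P := P) i, W.a8 * Wn i (topOf : P → Tops P) 3 z = 0 := by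
  classical
  have h0 := sum_Mq h.g.H (l := j + 1) h.hr g1 g2
  have h1 := nj_total h hij hi1 hb R W
  have h2 := sum_Lm (i := i) (j := j) W g
  have h3 : ∑ z ∈ K2.Z2 j (topOf : P → Tops P), ∑ y ∈ uc z, g z y ≤
      ∑ z ∈ K2.Z2 j (topOf : P → Tops P), Pn.cst W i j K z := Finset.sum_le_sum hg
  have h4 : ∑ z ∈ mx (P := P) i, (-(W.a8 * Wn i (topOf : P → Tops P) 3 z)) =
      -(W.a8 * ∑ z ∈ mx (P := P) i, Wn i (topOf : P → Tops P) 3 z) := by
    rw [mul_sum, Finset.sum_neg_distrib]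
  have h5 : ∀ z ∈ mx (P := P) i, 0 ≤ -(W.a8 * Wn i (topOf : P → Tops P) 3 z) := by
    intro z hz
    have := nj_mixed8 h hij hi1 hz
    nlinarith
  have h6 := Finset.sum_nonneg h5
  have h7 := Finset.sum_nonneg (fun (t : Tops P) (_ : t ∈ (univ : Finset (Tops P))) => hpos t)
  rw [sum_add_distrib] at h7
  have h8' : ∑ t : Tops P, (Lm W g i j t + Mq (j + 1) g1 g2 t) = 0 := by
    rw [sum_add_distrib]
    linarith
  have h9 : ∑ z ∈ K2.Z2 j (topOf : P → Tops P), (Pn.cst W i j K z - ∑ y ∈ uc z, g z y) = 0 := by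
    rw [sum_sub_distrib]
    linarith
  refine ⟨fun t => (Finset.sum_eq_zero_iff_of_nonneg (fun t _ => hpos t)).1 h8' t (mem_univ t),
    fun z hz => ?_, fun z hz => ?_⟩
  · have := (Finset.sum_eq_zero_iff_of_nonneg (fun z hz => sub_nonneg.2 (hg z hz))).1 h9 z hz
    linarith
  · have := (Finset.sum_eq_zero_iff_of_nonneg h5).1 (by linarith) z hz
    linarith

end nj

end Pool.Agent.GaussPoset.Mm
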